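import Mathlib
import Pool.Agent.THS.StmtsB

set_option autoImplicit false

/-! Row EVB of the squad THS: evaluation points for linearly independent functions. -/

namespace Pool.Agent.THS.H65

open Pool.Agent.THS

theorem evb : EvbStatement := by
  intro K X _ r
  induction r with
  | zero =>
    intro F _
    refine ⟨fun i => i.elim0, ?_⟩
    rw [Matrix.det_isEmpty]
    exact one_ne_zero
  | succ r ih =>
    intro F hF
    obtain ⟨q, hq⟩ := ih (fun i => F i.succ) (hF.comp Fin.succ (Fin.succ_injective r))
    by_contra hcon
    push Not at hcon
    have hexp : ∀ x : X, ∑ i : Fin (r + 1), ((-1) ^ (i : ℕ) *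
        (Matrix.of fun a b => F (i.succAbove a) (q b)).det) * F i x = 0 := by
      intro x
      have h := hcon (Fin.cons x q)
      rw [Matrix.det_succ_column_zero] at h
      rw [← h]
      apply Finset.sum_congr rfl
      intro i _
      have h1 : (Matrix.of fun i j => F i ((Fin.cons x q : Fin (r + 1) → X) j)) i 0 = F i x := by
        rw [Matrix.of_apply, Fin.cons_zero]
      have h2 : (Matrix.of fun i j => F i ((Fin.cons x q : Fin (r + 1) → X) j)).submatrix
          i.succAbove Fin.succ = Matrix.of fun a b => F (i.succAbove a) (q b) := by
        ext a b
        simp only [Matrix.submatrix_apply, Matrix.of_apply, Fin.cons_succ]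
      rw [h1, h2]
      ring
    have hli := Fintype.linearIndependent_iff.mp hF
      (fun i => (-1) ^ (i : ℕ) * (Matrix.of fun a b => F (i.succAbove a) (q b)).det)
      (by
        funext x
        rw [Finset.sum_apply]
        simp only [Pi.smul_apply, smul_eq_mul, Pi.zero_apply]
        exact hexp x) 0
    apply hq
    simpa using hli

end Pool.Agent.THS.H65
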