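import Mathlib
import Pool.Agent.THS.StmtsG

set_option autoImplicit false

/-! Row NSD of the squad THS: `TSeq` from its essential properties. -/

namespace Pool.Agent.THS.H65

open Pool.Agent.THS

theorem nsd (hR : RqiStatement) : NsdStatement := by
  intro K _ _ g N α β T x hN hα hβ hab hT0 hx0 hper heven hs hrk
  have h2 : (2 : K) ^ g ≠ 0 := pow_ne_zero _ two_ne_zero
  refine { hN := hN, hα := hα, hβ := hβ, ab := hab, T0 := hT0, x0 := hx0, per := hper,
           dup := ?_, rel := ?_, even := heven, rk1 := hrk }
  · intro k b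
    have h := hrk 0 b k k 0 0
    have e1 : RQ T 0 b k k = ∑ c, (sgn b c : K) * (T (2 * k) c * T 0 c) := by
      unfold RQ
      apply Finset.sum_congr rfl
      intro c _
      rw [zero_add, ← two_mul, sub_self]
    have e2 : RQ T 0 b 0 0 = ∑ c, (sgn b c : K) * T 0 c ^ 2 := by
      unfold RQ
      apply Finset.sum_congr rfl
      intro c _
      simp only [zero_add, sub_self, pow_two]
    have e3 : RQ T 0 b k 0 = ∑ c, (sgn b c : K) * T k c ^ 2 := by
      unfold RQ
      apply Finset.sum_congr rfl
      intro c _
      simp only [zero_add, add_zero, sub_zero, pow_two]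
    have e4 : RQ T 0 b 0 k = ∑ c, (sgn b c : K) * T k c ^ 2 := by
      unfold RQ
      apply Finset.sum_congr rfl
      intro c _
      simp only [zero_add, zero_sub, heven, pow_two]
    rw [e1, e2, e3, e4] at h
    rw [pow_two]
    exact h.symm
  · intro i j
    obtain ⟨s, hs0, hs1⟩ := hs i j
    refine ⟨s / 2 ^ g, div_ne_zero hs0 h2, fun a d => ?_⟩
    have h := hR g K T a d i j
    have h' : ∑ b, (sgn b (a + d) : K) * RQ T a b i j =
        s * ∑ b, (sgn b (a + d) : K) * (x i (a, b) * x j (a, b)) := by
      rw [Finset.mul_sum]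
      apply Finset.sum_congr rfl
      intro b _
      rw [hs1]
      ring
    rw [h'] at h
    rw [div_mul_eq_mul_div, h, mul_div_cancel_left₀ _ h2]

end Pool.Agent.THS.H65
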