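import Pool.Agent.THS.StmtsT

/-!
# THS row TPE: periods and parity of the theta series
-/

namespace Pool.Agent.THS.H65

open scoped BigOperators
open Pool.Agent.THS

/-- expansion of the quadratic form for a symmetric matrix -/
theorem quad_add {g : ℕ} (τ : Matrix (Fin g) (Fin g) ℂ) (hτ : τ.transpose = τ)
    (x p : Fin g → ℂ) :
    ∑ i, ∑ j, (x i + p i) * τ i j * (x j + p j) =
      (∑ i, ∑ j, x i * τ i j * x j) + 2 * (∑ i, ∑ j, x i * τ i j * p j) +
        ∑ i, ∑ j, p i * τ i j * p j := by
  have hs : ∀ i j, τ i j = τ j i := fun i j => by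
    have := congrFun (congrFun hτ j) i
    rw [Matrix.transpose_apply] at this
    exact this
  have h1 : ∑ i, ∑ j, p i * τ i j * x j = ∑ i, ∑ j, x i * τ i j * p j := by
    rw [Finset.sum_comm]
    refine Finset.sum_congr rfl fun i _ => Finset.sum_congr rfl fun j _ => ?_
    rw [hs j i]
    ring
  calc ∑ i, ∑ j, (x i + p i) * τ i j * (x j + p j)
      = ∑ i, ∑ j, (x i * τ i j * x j + x i * τ i j * p j + p i * τ i j * x j
          + p i * τ i j * p j) := by
        refine Finset.sum_congr rfl fun i _ => Finset.sum_congr rfl fun j _ => ?_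
        ring
    _ = (∑ i, ∑ j, x i * τ i j * x j) + (∑ i, ∑ j, x i * τ i j * p j)
          + (∑ i, ∑ j, p i * τ i j * x j) + ∑ i, ∑ j, p i * τ i j * p j := by
        simp only [Finset.sum_add_distrib]
    _ = _ := by
        rw [h1]
        ring

theorem tpe : TpeStatement := by
  intro g τ hτ s z p
  refine ⟨?_, ?_, ?_, ?_⟩
  · unfold ths
    rw [← (Equiv.addRight p).tsum_eq (fun n => tht τ s z n)]
    refine tsum_congr fun n => ?_
    have h : ∀ i, (n i : ℂ) + (((s i + (p i : ℝ) : ℝ)) : ℂ) =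
        (((Equiv.addRight p) n i : ℤ) : ℂ) + (s i : ℂ) := by
      intro i
      have e : (Equiv.addRight p) n i = n i + p i := rfl
      rw [e]
      push_cast
      ring
    unfold tht
    simp only [h]
  · unfold ths
    rw [← tsum_mul_left]
    refine tsum_congr fun n => ?_
    have hn : Complex.exp (2 * Real.pi * Complex.I * ((∑ i, n i * p i : ℤ) : ℂ)) = 1 := by
      rw [show (2 * Real.pi * Complex.I * ((∑ i, n i * p i : ℤ) : ℂ)) =
        ((∑ i, n i * p i : ℤ) : ℂ) * (2 * Real.pi * Complex.I) by ring]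
      exact Complex.exp_int_mul_two_pi_mul_I _
    have h1 : ∑ i, ((n i : ℂ) + (s i : ℂ)) * (z i + (p i : ℂ)) =
        ∑ i, ((n i : ℂ) + (s i : ℂ)) * z i + ((∑ i, n i * p i : ℤ) : ℂ)
          + ∑ i, (s i : ℂ) * (p i : ℂ) := by
      push_cast
      rw [← Finset.sum_add_distrib, ← Finset.sum_add_distrib]
      refine Finset.sum_congr rfl fun i _ => ?_
      ring
    unfold tht
    rw [h1, ← mul_one (Complex.exp (Real.pi * Complex.I * _ + 2 * Real.pi * Complex.I *
      ∑ i, ((n i : ℂ) + (s i : ℂ)) * z i)), ← hn, ← Complex.exp_add, ← Complex.exp_add]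
    congr 1
    ring
  · unfold ths
    rw [← (Equiv.addRight p).tsum_eq (fun n => tht τ s z n), ← tsum_mul_left]
    refine tsum_congr fun n => ?_
    have h : ∀ i, (((Equiv.addRight p) n i : ℤ) : ℂ) + (s i : ℂ) =
        ((n i : ℂ) + (s i : ℂ)) + (p i : ℂ) := by
      intro i
      have e : (Equiv.addRight p) n i = n i + p i := rfl
      rw [e]
      push_cast
      ring
    unfold tht
    simp only [h]
    rw [quad_add τ hτ (fun i => (n i : ℂ) + (s i : ℂ)) (fun i => (p i : ℂ)), ← Complex.exp_add]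
    have h2 : ∑ i, ((n i : ℂ) + (s i : ℂ)) * (z i + ∑ j, τ i j * (p j : ℂ)) =
        ∑ i, ((n i : ℂ) + (s i : ℂ)) * z i
          + ∑ i, ∑ j, ((n i : ℂ) + (s i : ℂ)) * τ i j * (p j : ℂ) := by
      rw [← Finset.sum_add_distrib]
      refine Finset.sum_congr rfl fun i _ => ?_
      rw [mul_add, Finset.mul_sum]
      congr 1
      refine Finset.sum_congr rfl fun j _ => ?_
      ring
    have h3 : ∑ i, ((n i : ℂ) + (s i : ℂ) + (p i : ℂ)) * z i =
        ∑ i, ((n i : ℂ) + (s i : ℂ)) * z i + ∑ i, (p i : ℂ) * z i := by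
      rw [← Finset.sum_add_distrib]
      refine Finset.sum_congr rfl fun i _ => ?_
      ring
    rw [h2, h3]
    congr 1
    ring
  · unfold ths
    rw [← (Equiv.neg (Fin g → ℤ)).tsum_eq (fun n => tht τ (fun i => -s i) z n)]
    refine tsum_congr fun n => ?_
    have h : ∀ i, (((Equiv.neg (Fin g → ℤ)) n i : ℤ) : ℂ) + ((-s i : ℝ) : ℂ) =
        -((n i : ℂ) + (s i : ℂ)) := by
      intro i
      have e : (Equiv.neg (Fin g → ℤ)) n i = -(n i) := rfl
      rw [e]
      push_cast
      ring
    unfold tht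
    simp only [h]
    congr 2
    · congr 1
      refine Finset.sum_congr rfl fun i _ => Finset.sum_congr rfl fun j _ => ?_
      ring
    · congr 1
      refine Finset.sum_congr rfl fun i _ => ?_
      ring

end Pool.Agent.THS.H65
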